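import Pool.Agent.H30.GMC.StT

/-!
Modules BIRF, VPT, EXV.
-/

open AlgebraicGeometry CategoryTheory FCB MvPolynomial

namespace GMC

namespace BIRF

theorem alg_eq {X : Scheme.{0}} [IsIntegral X] (y : X) (hy : y = genericPoint X) :
    Function.Bijective (algebraMap (X.presheaf.stalk y) X.functionField) := by
  have h : algebraMap (X.presheaf.stalk y) X.functionField =
      (X.presheaf.stalkSpecializes ((genericPoint_spec X).specializes trivial)).hom := rfl
  rw [h]
  subst hy
  rw [TopCat.Presheaf.stalkSpecializes_refl]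
  exact Function.bijective_id

theorem stk_eq {X Y : Scheme.{0}} [IsIntegral Y] (g : Y ⟶ X) (y : Y) (hy : y = genericPoint Y)
    (h : Function.Bijective (g.stalkMap (genericPoint Y)).hom) :
    Function.Bijective (g.stalkMap y).hom := by
  subst hy
  exact h

end BIRF

theorem birf_thm : S_BIRF := by
  refine ⟨?_, ?_⟩
  · intro X Y _ _ _ _ g hg a
    obtain ⟨s, hs⟩ := (BIRF.alg_eq (g (genericPoint Y)) hg).2 a
    refine ⟨(g.stalkMap (genericPoint Y)).hom s, ⟨s, hs, rfl⟩, ?_⟩
    intro ha hb
    have hu : IsUnit (algebraMap (X.presheaf.stalk (g (genericPoint Y))) X.functionField s) := by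
      rw [hs]
      exact isUnit_iff_ne_zero.mpr ha
    obtain ⟨t, ht⟩ := (BIRF.alg_eq (g (genericPoint Y)) hg).2 a⁻¹
    have hst : s * t = 1 := by
      apply (BIRF.alg_eq (g (genericPoint Y)) hg).1
      rw [map_mul, map_one, hs, ht]
      exact mul_inv_cancel₀ ha
    have h1 : (g.stalkMap (genericPoint Y)).hom s * (g.stalkMap (genericPoint Y)).hom t = 1 := by
      rw [← map_mul, hst, map_one]
    rw [hb, zero_mul] at h1
    exact zero_ne_one h1
  · intro X Y Z _ _ _ _ _ _ g k hg hk
    refine ⟨?_, ?_⟩
    · show g (k (genericPoint Z)) = _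
      rw [hk.1, hg.1]
    · have h1 := BIRF.stk_eq g (k (genericPoint Z)) hk.1 hg.2
      have h2 := hk.2
      have h3 : ((k ≫ g).stalkMap (genericPoint Z)).hom =
          (k.stalkMap (genericPoint Z)).hom.comp (g.stalkMap (k (genericPoint Z))).hom := by
        have := Scheme.Hom.stalkMap_comp k g (genericPoint Z)
        rw [this]
        rfl
      rw [h3]
      exact h2.comp h1

theorem vpt_thm (h1 : S_PSB) : S_VPT := by
  intro V
  obtain ⟨hp, hh, hi, hex, hsp, hinj⟩ := h1 V.n
  have hce : Topology.IsClosedEmbedding V.emb := V.emb.isClosedEmbedding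
  refine ⟨?_, ?_, ?_, ?_⟩
  · intro x y
    rw [← hce.isInducing.specializes_iff, hsp]
    rfl
  · intro x hx
    have h2 : V.emb (genericPoint V.X) ⤳ x := (hsp _ _).mpr hx
    have h3 : x ∈ Set.range V.emb := h2.mem_closed hce.isClosed_range ⟨_, rfl⟩
    obtain ⟨y, hy⟩ := h3
    exact ⟨y, hy⟩
  · intro x y hxy
    exact hce.injective (hinj _ _ hxy)
  · intro x
    rw [hce.isClosed_iff_image_isClosed, Set.image_singleton]

namespace EXV

theorem dom {X Y : Scheme.{0}} (f : X ⟶ Y) [QuasiCompact f] :
    IsSchemeTheoreticallyDominant f.toImage := by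
  rw [isSchemeTheoreticallyDominant_iff]
  have haff : ∀ U : Y.affineOpens, IsAffineOpen (f.imageι ⁻¹ᵁ U.1) := fun U => U.2.preimage _
  have hcov : (⨆ U : Y.affineOpens, (⟨f.imageι ⁻¹ᵁ U.1, haff U⟩ : f.image.affineOpens).1) = ⊤ := by
    have h1 := congrArg (fun W => f.imageι ⁻¹ᵁ W) (iSup_affineOpens_eq_top Y)
    simpa using h1
  refine Scheme.IdealSheafData.ext_of_iSup_eq_top
    (fun U : Y.affineOpens => ⟨f.imageι ⁻¹ᵁ U.1, haff U⟩) hcov ?_
  intro U
  rw [Scheme.Hom.ker_apply]
  have := f.toImage_app_injective U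
  rw [(RingHom.injective_iff_ker_eq_bot _).mp this]
  rfl

end EXV

theorem exv_thm : S_EXV := by
  intro n x
  let f := (PS n).fromSpecResidueField x
  have hred : IsReduced f.image := by
    have := EXV.dom f
    exact IsSchemeTheoreticallyDominant.isReduced f.toImage
  have hdom : DenseRange f.toImage := Scheme.Hom.denseRange f.toImage
  let s0 : Spec ((PS n).residueField x) := genericPoint _
  have hall : ∀ s : Spec ((PS n).residueField x), s = s0 := by
    intro s
    exact Subsingleton.elim _ _
  have hcl : closure {f.toImage s0} = Set.univ := by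
    have h1 : Set.range f.toImage = {f.toImage s0} := by
      ext z
      constructor
      · rintro ⟨s, rfl⟩
        rw [hall s]
        rfl
      · rintro rfl
        exact ⟨s0, rfl⟩
    rw [← h1]
    exact hdom.closure_range
  have hirr : IrreducibleSpace f.image := by
    have : IsIrreducible (Set.univ : Set f.image) := by
      rw [← hcl]
      exact isIrreducible_singleton.closure
    exact (irreducibleSpace_def _).mpr this
  have hint : IsIntegral f.image := isIntegral_of_irreducibleSpace_of_isReduced _
  refine ⟨f.image, f.imageι, hint, inferInstance, ?_⟩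
  have hg : genericPoint f.image = f.toImage s0 := by
    apply (genericPoint_spec f.image).eq
    exact hcl
  rw [hg]
  have h2 : f.imageι (f.toImage s0) = (f.toImage ≫ f.imageι) s0 := rfl
  rw [h2, Scheme.Hom.toImage_imageι]
  exact Scheme.fromSpecResidueField_apply x s0

end GMC
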